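import Pool.Agent.helper71.DSW.SpecC

/-!
# Row MAR of project dsw: marginals
-/

set_option autoImplicit false

namespace Pool.Agent.DSW

open Equiv Finset Function Pool.Agent.helper48.PP
open scoped ENNReal Classical

noncomputable section

theorem MAR_bij {ι κ : Type} (e : κ → ι) (he : Injective e) :
    Bijective (Sum.elim e (Subtype.val : {i : ι // i ∉ Set.range e} → ι)) := by
  constructor
  · rintro (a | a) (b | b) h
    · exact congrArg Sum.inl (he h)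
    · exact absurd ⟨a, h⟩ b.2
    · exact absurd ⟨b, h.symm⟩ a.2
    · exact congrArg Sum.inr (Subtype.ext h)
  · intro i
    by_cases hi : i ∈ Set.range e
    · obtain ⟨k, hk⟩ := hi
      exact ⟨Sum.inl k, hk⟩
    · exact ⟨Sum.inr ⟨i, hi⟩, rfl⟩

/-- `MAR` -/
theorem MAR (hPRD : PRD_stmt) (hGEO : GEO_stmt) : MAR_stmt := by
  intro ι κ _ _ e he H hH f
  obtain ⟨hg, -⟩ := hGEO H hH
  let R : Type := {i : ι // i ∉ Set.range e}
  let E : κ ⊕ R ≃ ι := Equiv.ofBijective _ (MAR_bij e he)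
  let Φ : (κ → ℕ) × (R → ℕ) ≃ (ι → ℕ) :=
    (Equiv.sumArrowEquivProdArrow κ R ℕ).symm.trans (Equiv.arrowCongr E (Equiv.refl ℕ))
  have hΦ : ∀ (z : (κ → ℕ) × (R → ℕ)) (s : κ ⊕ R), Φ z (E s) = Sum.elim z.1 z.2 s := by
    intro z s
    have h1 : Φ z (E s) = Sum.elim z.1 z.2 (E.symm (E s)) := rfl
    rw [h1, Equiv.symm_apply_apply]
  have hΦe : ∀ z : (κ → ℕ) × (R → ℕ), Φ z ∘ e = z.1 := by
    intro z
    funext k
    exact hΦ z (Sum.inl k)
  have hΦp : ∀ z : (κ → ℕ) × (R → ℕ),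
      ∏ i, wt H (Φ z i) = (∏ k, wt H (z.1 k)) * ∏ r, wt H (z.2 r) := by
    intro z
    rw [← Equiv.prod_comp E, Fintype.prod_sum_type]
    have h1 : ∀ s, wt H (Φ z (E s)) = wt H (Sum.elim z.1 z.2 s) := fun s => by rw [hΦ z s]
    simp only [h1, Sum.elim_inl, Sum.elim_inr]
  have hR : ∑' y : R → ℕ, ∏ r, wt H (y r) = 1 := by
    rw [hPRD R (fun _ j => wt H j)]
    simp only [hg, Finset.prod_const_one]
  unfold Ex
  rw [← Φ.tsum_eq]
  simp only [hΦe, hΦp]
  rw [ENNReal.tsum_prod']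
  apply tsum_congr
  intro a
  have h2 : ∀ b : R → ℕ, (∏ k, wt H (a k)) * (∏ r, wt H (b r)) * f a =
      ((∏ k, wt H (a k)) * f a) * ∏ r, wt H (b r) := by
    intro b
    ring
  simp only [h2]
  rw [ENNReal.tsum_mul_left, hR, mul_one]

end

end Pool.Agent.DSW
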